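import Mathlib

namespace Pool.Agent.H.MP_ae2f9f_co

def pat : List ℕ := [5, 9, 10, 11, 13, 17, 18, 19, 20, 21, 22, 23, 25, 26, 27, 29]

def force (a : ℕ) (k : ℕ → Bool) : Bool := match a with
  | 0 => k 0
  | n + 1 => k (n + 1)

def nb (s : ℕ) : ℕ := s ||| s <<< 1 ||| s >>> 1 ||| s <<< 6 ||| s >>> 6

def fill (b : ℕ) : ℕ → ℕ → Bool
  | 0, _ => false
  | n + 1, s => force (nb s &&& b) fun t => if t = s then (s != 0 && s != b) else fill b n t

theorem fill_spec (b n s : ℕ) (h : fill b n s = true) : ∃ t, nb t &&& b = t ∧ t ≠ 0 ∧ t ≠ b := by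
  induction n generalizing s with
  | zero => simp [fill] at h
  | succ n ih =>
    have f : ∀ a k, force a k = k a := fun a k => by cases a <;> rfl
    simp only [fill, f] at h
    split_ifs at h with e
    · exact ⟨s, e, by simpa using h⟩
    · exact ih _ h

def nt (a : ℕ) : ℕ := a ^^^ 31

theorem chk : (pat.all fun a => pat.all fun b => pat.all fun c => pat.all fun d =>
    (a &&& nt b ||| (a ||| b) &&& nt c ||| (a ||| b ||| c) &&& nt d) != 31 || pat.all fun e =>
    (a &&& nt b &&& (c ||| d ||| e) ||| (a ||| b) &&& nt c &&& (d ||| e) |||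
      (a ||| b ||| c) &&& nt d &&& e) != 31 ||
    force (a ||| b <<< 6 ||| c <<< 12 ||| d <<< 18 ||| e <<< 24) fun B =>
      fill B 30 (a &&& (a ^^^ (a - 1)))) = true := by
  decide +kernel

theorem key : ∀ (n : Fin 32) (a c b : Fin 5), a < c ∧ c < b ∧ n.1.testBit a = true ∧
    ¬ n.1.testBit c = true ∧ n.1.testBit b = true → n.1 ∈ pat := by decide +kernel

end Pool.Agent.H.MP_ae2f9f_co
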